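import Pool.Agent.KS6_71.HX.Main

set_option autoImplicit false

/-! # Every natural number is the Heesch number of a planar body

The definitions `IsBody`, `Congruent`, `IsPatch`, `TilesSpace` and `SurroundedByPackings` are in
`Pool.Agent.KS6_71.HX.Defs`. -/

namespace Pool.Agent.Results.MP_6145c0_co.EveryHeeschNumber

open Pool.Agent.KS6_71.HX

/-- For every natural number `k` there is a body in the plane that can be surrounded `k` times by
congruent copies of itself, but not `k + 1` times, and that admits no tiling of the plane. -/
theorem result : ∀ k : ℕ, ∃ C : Set (EuclideanSpace ℝ (Fin 2)),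
    IsBody C ∧ ¬ TilesSpace C ∧ SurroundedByPackings C k ∧ ¬ SurroundedByPackings C (k + 1) := by
  intro k
  obtain ⟨A, h1, h2, -, -, h3, h4⟩ := heesch_exact (n := 2) le_rfl k
  exact ⟨A, h1, h2, h3, h4⟩

end Pool.Agent.Results.MP_6145c0_co.EveryHeeschNumber
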